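import Mathlib

namespace Pool.Agent.Results.MP_3ea013_an.Neg

/-- Left stability of the subset `I` of a normed algebra, with the restricted norm. -/
def LeftStable {A : Type} [NormedRing A] (I : Set A) : Prop :=
  ∀ a ∈ I, ∀ M : ℝ, 0 < M → (∀ b ∈ I, ‖a * b‖ ≤ M * ‖b‖) → ‖a‖ ≤ M

/-- Right stability of the subset `I` of a normed algebra, with the restricted norm. -/
def RightStable {A : Type} [NormedRing A] (I : Set A) : Prop :=
  ∀ a ∈ I, ∀ M : ℝ, 0 < M → (∀ b ∈ I, ‖b * a‖ ≤ M * ‖b‖) → ‖a‖ ≤ M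

noncomputable def p : (ℂ × ℂ) →L[ℂ] (ℂ × ℂ) :=
  (ContinuousLinearMap.fst ℂ ℂ ℂ + ContinuousLinearMap.snd ℂ ℂ ℂ).prod 0

lemma p_mul : p * p = p := by
  ext <;> simp [p]

lemma p_norm : ¬ ‖p‖ ≤ 1 := by
  intro h
  have h1 := p.le_opNorm ((1 : ℂ), (1 : ℂ))
  have h2 : p ((1 : ℂ), (1 : ℂ)) = (2, 0) := by
    simp [p]; norm_num
  rw [h2] at h1
  simp [Prod.norm_def] at h1
  linarith

abbrev B : Type := Subalgebra.centralizer ℂ ({p} : Set ((ℂ × ℂ) →L[ℂ] (ℂ × ℂ)))

noncomputable def e : B := ⟨p, by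
  rw [Subalgebra.mem_centralizer_iff]
  intro g hg
  rw [Set.mem_singleton_iff.mp hg]⟩

lemma e_comm (a : B) : e * a = a * e := by
  apply Subtype.ext
  have := (Subalgebra.mem_centralizer_iff ℂ).mp a.2 p rfl
  exact this

lemma e_mul : e * e = e := Subtype.ext p_mul

theorem result :
    ∃ (A : Type) (_ : NormedRing A) (_ : NormedAlgebra ℂ A) (_ : CompleteSpace A)
      (I : TwoSidedIdeal A),
      FiniteDimensional ℂ A ∧ LeftStable (Set.univ : Set A) ∧ RightStable (Set.univ : Set A) ∧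
      (∃ u ∈ I, ∀ a ∈ I, u * a = a ∧ a * u = a) ∧
      ¬ LeftStable (I : Set A) ∧ ¬ RightStable (I : Set A) := by
  have hone : ‖(1 : B)‖ = 1 := by
    change ‖(1 : (ℂ × ℂ) →L[ℂ] (ℂ × ℂ))‖ = 1
    exact norm_one
  let I : TwoSidedIdeal B := TwoSidedIdeal.mk' {a | e * a = a} (by simp)
    (fun {x y} hx hy => by simp only [Set.mem_ofPred_eq] at *; rw [mul_add, hx, hy])
    (fun {x} hx => Subtype.ext
      ((mul_neg p x.1).trans (congrArg Neg.neg (congrArg Subtype.val hx))))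
    (fun {x y} hy => by
      simp only [Set.mem_ofPred_eq] at *; rw [← mul_assoc, e_comm, mul_assoc, hy])
    (fun {x y} hx => by simp only [Set.mem_ofPred_eq] at *; rw [← mul_assoc, hx])
  have hI : ∀ a : B, a ∈ I ↔ e * a = a := fun a => by
    simp only [I, TwoSidedIdeal.mem_mk', Set.mem_ofPred_eq]
  have hc : CompleteSpace B :=
    (Submodule.closed_of_finiteDimensional (Subalgebra.toSubmodule
      (Subalgebra.centralizer ℂ ({p} : Set ((ℂ × ℂ) →L[ℂ] (ℂ × ℂ)))))).completeSpace_coe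
  refine ⟨B, inferInstance, inferInstance, hc, I, inferInstance,
    ?_, ?_, ⟨e, (hI e).2 e_mul, fun a ha => ⟨(hI a).1 ha, by rw [← e_comm]; exact (hI a).1 ha⟩⟩,
    ?_, ?_⟩
  · intro a _ M _ h
    simpa [hone] using h 1 trivial
  · intro a _ M _ h
    simpa [hone] using h 1 trivial
  · intro h
    refine p_norm (h e ((hI e).2 e_mul) 1 one_pos ?_)
    intro b hb
    rw [(hI b).1 hb, one_mul]
  · intro h
    refine p_norm (h e ((hI e).2 e_mul) 1 one_pos ?_)
    intro b hb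
    rw [← e_comm, (hI b).1 hb, one_mul]

end Pool.Agent.Results.MP_3ea013_an.Neg
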